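import Pool.Agent.H579.R.TupER
import Pool.Agent.H579.R.Reg

/-!
# Quadruplets (and `(k + 1)`-tuples) `p, p + h_1, ..., p + h_k` of a prime and of products of exactly two primes: the
# formula of Hardy and Littlewood for almost all shapes in prescribed residue classes of moduli up to `x ^ (1 - ρ)`

The question asks for infinitely many sets of five consecutive odd integers which contain four primes; this means
infinitely many prime quadruplets `p`, `p + 2`, `p + 6`, `p + 8`. We study the quadruplets (and `(k + 1)`-tuples) in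
which `p` is a prime and the other members are products of EXACTLY two primes `p_i' p_i''`, one of which, `p_i'`, is
between `x ^ κ₁` and `x ^ κ₂`, where `0 < κ₁ ≤ κ₂ < ρ ≤ 1 / 5`; `p_i'` may be restricted to arbitrary sets of primes
(the coefficients `α_i`). The number of prime factors of every member is prescribed exactly, so that the parity problem
is present in full, and for a given shape nothing is known. We prove the asymptotic formula with error term
`O(x / (log x) ^ A)`,

  `∑_{p ≤ x} log p ∏_i ∑_{p + h_i = p' p''} α_i(p') log p'' = 𝔖(h) ∏_i (∑_{p'} α_i(p') / p') x + O(x / (log x) ^ A)`,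

where `𝔖(h)` is the singular series of Hardy and Littlewood of the tuple `0, h_1, ..., h_k`, for almost all shapes in
VERY THIN sets: `h_i ≡ a_i (mod q_i)`, where the moduli may be as large as `x ^ (1 - ρ)` and the classes are arbitrary,
for instance `(a_1, a_2, a_3) = (2, 6, 8)`. There are only about `x ^ ρ` possible values for each `h_i ≤ x`, and the
number of the exceptions is at most `∏ (x / q_i) / (log x) ^ A`.

The moduli have to be regular: not divisible by a member of a set `D` of at most `(log x) ^ c` integers, the RADICALS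
of which are larger than any given power of `log x`; `D` does not depend on the moduli, the classes, the coefficients and
the shapes. In particular there is NO condition on moduli whose radical is at most a power of `log x`, for instance
`q_i = 10 ^ m ≤ x ^ (1 - ρ)`: prescribed last digits.

Proof. For a product of two primes with a small prime `p'` the sums over the characters modulo `q ≤ x ^ (1 - ρ)` are
small in mean square on the minor arcs, and few characters are exceptional on the major arcs (helper files `H579/E`); for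
regular moduli also the exceptional characters and the characters of small conductor are under control (`G/GoodR`,
`G/RegL`, `G/CntL`; for conductors with a small radical Postnikov's formula and Vinogradov's method, `H567/PP`,
`R/PG2R`), so that the sum of the squares over ALL residue classes modulo `q` is at most
`x ^ 2 / (q (log x) ^ A)` (`G/PG2`). Hence the correlation of this function, minus its sieve model, with an ARBITRARY
bounded function is small for almost all shifts of every class (`G/WtE`). The factors are replaced one after the other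
by their sieve models (`G/Multi2`, `G/TupE`), and the resulting sum is evaluated by the fundamental lemma and the theorem
of Bombieri and Vinogradov (library: `H373R2/T7`).
-/

set_option autoImplicit false

namespace Pool.Agent.Results.MP_fc51f7_nt.QuadrupletsLevelOne

open Finset

/-- the radical of `d`: the product of the primes dividing `d` -/
def rad (d : ℕ) : ℕ := ∏ p ∈ d.primeFactors, p

/-- the primes `p` with `x ^ κ₁ < p ≤ x ^ κ₂` -/
noncomputable def smallPrimes (x : ℕ) (κ₁ κ₂ : ℝ) : Finset ℕ :=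
  (Icc 1 x).filter (fun p => p.Prime ∧ (x : ℝ) ^ κ₁ < p ∧ (p : ℝ) ≤ (x : ℝ) ^ κ₂)

/-- the sum of `α p * log p₂` over the representations `n = p p₂` by a prime `p` with `x ^ κ₁ < p ≤ x ^ κ₂` and a
prime `p₂` -/
noncomputable def twoPrimes (x : ℕ) (κ₁ κ₂ : ℝ) (α : ℕ → ℝ) (n : ℕ) : ℝ :=
  ∑ p ∈ (smallPrimes x κ₁ κ₂).filter (fun p => p ∣ n ∧ (n / p).Prime), α p * Real.log (n / p : ℕ)

/-- the sum of `log p ∏ (twoPrimes of p + h i)` over the primes `p ≤ x` -/
noncomputable def weighted {k : ℕ} (x : ℕ) (κ₁ κ₂ : ℝ) (α : Fin k → ℕ → ℝ) (h : Fin k → ℤ) : ℝ :=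
  ∑ p ∈ (Icc 1 x).filter Nat.Prime, Real.log p * ∏ i, twoPrimes x κ₁ κ₂ (α i) ((p : ℤ) + h i).toNat

/-- the number of the residue classes `m` modulo `p` for which `m` or one of the `m + h i` is divisible by `p` -/
noncomputable def classes {k : ℕ} (h : Fin k → ℤ) (p : ℕ) : ℕ :=
  Set.ncard {m : ℕ | m < p ∧ (p ∣ m ∨ ∃ i, (p : ℤ) ∣ m + h i)}

/-- the singular series of Hardy and Littlewood of the tuple `0, h 0, h 1, ...` -/
noncomputable def singular {k : ℕ} (h : Fin k → ℤ) : ℝ :=
  ∏' p : Nat.Primes, (1 - (classes h p : ℝ) / (p : ℕ)) / (1 - 1 / ((p : ℕ) : ℝ)) ^ (k + 1)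

theorem singular_eq {k : ℕ} (h : Fin k → ℤ) :
    Pool.Agent.H579.G.sing (fun _ => 1) (Pool.Agent.H579.G.cons0 h) = singular h := by
  classical
  unfold Pool.Agent.H579.G.sing singular
  congr 1
  funext p
  unfold Pool.Agent.H579.G.fac
  have e : Pool.Agent.H373R2.T7.nuB (Pool.Agent.H579.G.Qf (fun _ => 1) (Pool.Agent.H579.G.cons0 h)) p =
      classes h p := by
    rw [← Pool.Agent.H579.G.nuP_cons]
    unfold Pool.Agent.H373R2.T7.nuP classes
    rw [← Set.ncard_coe_finset]
    congr 1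
    ext m
    rw [Finset.mem_coe, Finset.mem_filter, Finset.mem_range, Set.mem_ofPred_eq]
  rw [e]

/-- the function of the helper files -/
theorem twoPrimes_eq {x n : ℕ} {κ₁ κ₂ : ℝ} {α : ℕ → ℝ} (hx : 1 ≤ x) (hn : 0 < n) (hκ : κ₂ ≤ 1) :
    Pool.Agent.H579.G.f2 (Pool.Agent.H579.E.res x κ₁ κ₂ α) n = twoPrimes x κ₁ κ₂ α n := by
  classical
  unfold Pool.Agent.H579.G.f2 twoPrimes smallPrimes
  have hx1 : (1 : ℝ) ≤ x := by exact_mod_cast hx
  rw [filter_filter]
  have e1 : (Icc 1 x).filter (fun p : ℕ => (p.Prime ∧ (x : ℝ) ^ κ₁ < (p : ℝ) ∧ (p : ℝ) ≤ (x : ℝ) ^ κ₂) ∧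
      (p ∣ n ∧ (n / p).Prime)) = n.divisors.filter (fun p : ℕ => (p.Prime ∧ (x : ℝ) ^ κ₁ < (p : ℝ) ∧
      (p : ℝ) ≤ (x : ℝ) ^ κ₂) ∧ (n / p).Prime) := by
    ext p
    rw [mem_filter, mem_filter, mem_Icc, Nat.mem_divisors]
    constructor
    · rintro ⟨-, h1, h2, h3⟩
      exact ⟨⟨h2, hn.ne'⟩, h1, h3⟩
    · rintro ⟨⟨h1, -⟩, h2, h3⟩
      refine ⟨⟨h2.1.one_le, ?_⟩, h2, h1, h3⟩
      have h4 : (x : ℝ) ^ κ₂ ≤ (x : ℝ) ^ (1 : ℝ) := Real.rpow_le_rpow_of_exponent_le hx1 hκ
      rw [Real.rpow_one] at h4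
      exact_mod_cast h2.2.2.trans h4
  rw [e1, sum_filter]
  refine sum_congr rfl fun p _ => ?_
  unfold Pool.Agent.H579.E.res Pool.Agent.H579.G.thp
  by_cases h1 : p.Prime ∧ (x : ℝ) ^ κ₁ < p ∧ (p : ℝ) ≤ (x : ℝ) ^ κ₂
  · by_cases h2 : (n / p).Prime
    · rw [if_pos h1, if_pos h2, if_pos ⟨h1, h2⟩]
    · rw [if_neg h2, mul_zero, if_neg fun h3 => h2 h3.2]
  · rw [if_neg h1, zero_mul, if_neg fun h3 => h1 h3.1]

theorem WA_eq {x : ℕ} {κ₁ κ₂ : ℝ} {α : ℕ → ℝ} :
    Pool.Agent.H579.E.WA x (Pool.Agent.H579.E.res x κ₁ κ₂ α) = ∑ p ∈ smallPrimes x κ₁ κ₂, α p / p := by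
  classical
  unfold Pool.Agent.H579.E.WA smallPrimes
  rw [sum_filter]
  refine sum_congr rfl fun p _ => ?_
  unfold Pool.Agent.H579.E.res
  split_ifs
  · rfl
  · rw [zero_div]

/-- **A prime and products of exactly two primes, with shapes in very thin sets.** Let `k ≥ 1` (`k = 3`: quadruplets),
`0 < κ₁ ≤ κ₂ < ρ ≤ 1 / 5` and `A` be given. There is `c` such that for all `B` and all sufficiently large `x` there is a
set `D` of at most `(log x) ^ c` integers, all of them with a radical larger than `(log x) ^ B`, such that for all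
functions `α_i : ℕ → [-1, 1]`, all moduli `1 ≤ q_i ≤ x ^ (1 - ρ)` which have a radical `≤ (log x) ^ B` or are not
divisible by a member of `D` and ALL integers `a_i`, `i = 1, ..., k`, all but at most `(∏ x / q_i) / (log x) ^ A` of the tuples `h` of distinct integers
`0 < h_i ≤ x`, `h_i ≡ a_i (mod q_i)`, satisfy
`|weighted x κ₁ κ₂ α h - singular h * ∏_i (∑_{p ∈ smallPrimes x κ₁ κ₂} α_i p / p) * x| ≤ x / (log x) ^ A`. -/
theorem result (k : ℕ) (hk : 1 ≤ k) (κ₁ κ₂ ρ : ℝ) (h0 : 0 < κ₁) (h01 : κ₁ ≤ κ₂) (h1 : κ₂ < ρ) (h2 : ρ ≤ 1 / 5) (A : ℕ) :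
    ∃ c : ℕ, ∀ B : ℕ, ∃ x₀ : ℕ, ∀ x : ℕ, x₀ ≤ x →
      ∃ D : Finset ℕ, (D.card : ℝ) ≤ Real.log x ^ c ∧ (∀ d ∈ D, Real.log x ^ B < (rad d : ℝ)) ∧
      ∀ α : Fin k → ℕ → ℝ, (∀ i p, |α i p| ≤ 1) →
      ∀ q : Fin k → ℕ, (∀ i, 1 ≤ q i ∧ (q i : ℝ) ≤ (x : ℝ) ^ (1 - ρ) ∧
        ((rad (q i) : ℝ) ≤ Real.log x ^ B ∨ ∀ d ∈ D, ¬ d ∣ q i)) → ∀ a : Fin k → ℤ,
        ({h : Fin k → ℤ | Function.Injective h ∧ (∀ i, 0 < h i ∧ h i ≤ x ∧ h i ≡ a i [ZMOD q i]) ∧
          ¬ |weighted x κ₁ κ₂ α h - singular h * (∏ i, ∑ p ∈ smallPrimes x κ₁ κ₂, α i p / p) * x| ≤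
            x / Real.log x ^ A}.ncard : ℝ) ≤ (∏ i, ((x : ℝ) / q i)) / Real.log x ^ A := by
  classical
  obtain ⟨c, c1⟩ := Pool.Agent.H579.R.tupER k hk h0 h01 h1 h2 A
  refine ⟨c, fun B => ?_⟩
  obtain ⟨x₀, c2⟩ := c1 B
  refine ⟨x₀ + 1, fun x hx => ?_⟩
  obtain ⟨D, hD1, hD2, c3⟩ := c2 x (by omega)
  refine ⟨D, hD1, hD2, fun α hα q hq a => ?_⟩
  have c4 := c3 (fun i => Pool.Agent.H579.E.res x κ₁ κ₂ (α i)) (fun i => Pool.Agent.H579.E.al_res (hα i)) q
    (fun i => ⟨(hq i).1, (hq i).2.1, Pool.Agent.H579.R.reg_of_rad (hq i).1 hD2 (hq i).2.2⟩) a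
  have hf : {h : Fin k → ℤ | Function.Injective h ∧ (∀ i, 0 < h i ∧ h i ≤ x ∧ h i ≡ a i [ZMOD q i]) ∧
          ¬ |weighted x κ₁ κ₂ α h - singular h * (∏ i, ∑ p ∈ smallPrimes x κ₁ κ₂, α i p / p) * x| ≤
            x / Real.log x ^ A}.Finite := by
    refine Set.Finite.subset (Fintype.piFinset (fun _ : Fin k => Finset.Icc (-(x : ℤ)) x)).finite_toSet ?_
    intro h hh
    rw [Finset.mem_coe, Fintype.mem_piFinset]
    intro i
    obtain ⟨e1, e2, -⟩ := hh.2.1 i
    exact Finset.mem_Icc.2 ⟨by omega, e2⟩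
  rw [Set.ncard_eq_toFinset_card _ hf]
  refine c4 hf.toFinset (fun h hh => ?_) (fun h hh => ?_)
  · have e1 := hf.mem_toFinset.1 hh
    exact ⟨e1.1, e1.2.1⟩
  · obtain ⟨-, e2, e3⟩ := hf.mem_toFinset.1 hh
    rw [not_le] at e3
    rw [singular_eq]
    have e4 : Pool.Agent.H579.G.wsumE x (fun i => Pool.Agent.H579.E.res x κ₁ κ₂ (α i)) h =
        weighted x κ₁ κ₂ α h := by
      unfold Pool.Agent.H579.G.wsumE weighted
      rw [sum_filter]
      refine sum_congr rfl fun n _ => ?_
      unfold Pool.Agent.H579.G.thp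
      by_cases hn : n.Prime
      · rw [if_pos hn, if_pos hn]
        congr 1
        refine prod_congr rfl fun i _ => ?_
        have e5 : 0 < (n : ℤ) + h i := by
          have := (e2 i).1
          omega
        unfold Pool.Agent.H579.G.ex
        rw [if_pos e5]
        exact twoPrimes_eq (by omega) (by omega) (by linarith)
      · rw [if_neg hn, if_neg hn, zero_mul]
    rw [e4]
    have e6 : ∏ i, Pool.Agent.H579.E.WA x (Pool.Agent.H579.E.res x κ₁ κ₂ (α i)) =
        ∏ i, ∑ p ∈ smallPrimes x κ₁ κ₂, α i p / p := prod_congr rfl fun i _ => WA_eq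
    rw [e6]
    exact e3

end Pool.Agent.Results.MP_fc51f7_nt.QuadrupletsLevelOne
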