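import Mathlib
import Pool.Agent.H76.TB.E9

/-!
# Sums and differences of two primes with almost prime companions

For almost all integers `n` we count the representations `n = p + q` and `n = q - p` in primes `p, q` such that the values of `k` given
linear forms at `p` and of `k` given linear forms at `q` have no small prime factor. In particular almost all `n` without a local
obstruction are sums of two, and differences of two, primes `p` for which `p + 2`, `p + 6`, `p + 8` are almost primes.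
-/

set_option autoImplicit false

open Finset

namespace Pool.Agent.Results.MP_fc51f7_nt.SumsAndDifferences

/-- the pairs of primes `p, q ≤ N` with `q = n + e p` such that no `a 0 j * p + b 0 j` and no `a 1 j * q + b 1 j` has a prime factor
`l ≤ y` -/
def Pairs {k : ℕ} (e : ℤ) (N n y : ℕ) (a b : Fin 2 → Fin k → ℤ) : Finset (ℕ × ℕ) :=
  (Icc 1 N ×ˢ Icc 1 N).filter (fun t => (t.2 : ℤ) = n + e * t.1 ∧ t.1.Prime ∧ t.2.Prime ∧
    ∀ l ∈ (range (y + 1)).filter Nat.Prime, ∀ j, ¬ (l : ℤ) ∣ a 0 j * t.1 + b 0 j ∧ ¬ (l : ℤ) ∣ a 1 j * t.2 + b 1 j)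

/-- the number of the classes `x` modulo `p` for which `p` divides `x`, `n + e x`, some `a 0 j * x + b 0 j` or some
`a 1 j * (n + e x) + b 1 j` -/
def forbidden {k : ℕ} (e : ℤ) (n : ℕ) (a b : Fin 2 → Fin k → ℤ) (p : ℕ) : ℕ :=
  ((range p).filter (fun x : ℕ => (p : ℤ) ∣ x ∨ (p : ℤ) ∣ n + e * x ∨
    ∃ j, (p : ℤ) ∣ a 0 j * x + b 0 j ∨ (p : ℤ) ∣ a 1 j * (n + e * x) + b 1 j)).card

/-- the expected value: the number of the solutions of `x' = n + e x` in positive integers `x, x' ≤ N`, times the local factors -/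
noncomputable def expected {k : ℕ} (e : ℤ) (N n y : ℕ) (a b : Fin 2 → Fin k → ℤ) : ℝ :=
  ((Icc 1 N ×ˢ Icc 1 N).filter (fun t => (t.2 : ℤ) = n + e * t.1)).card *
    ∏ p ∈ (range (y + 1)).filter Nat.Prime, (((1 - 1 / (p : ℝ))⁻¹) ^ 2 * (1 - (forbidden e n a b p : ℝ) / p))

/-- `v` is not zero and has at most `r` prime factors (with multiplicity), all larger than `w` -/
def AlmostPrime (r : ℕ) (w : ℝ) (v : ℤ) : Prop :=
  v ≠ 0 ∧ v.natAbs.primeFactorsList.length ≤ r ∧ ∀ q ∈ v.natAbs.primeFactorsList, w < q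

/-- `p` is prime and `p + 2`, `p + 6`, `p + 8` are almost primes -/
def Quadruplet (r : ℕ) (w : ℝ) (p : ℕ) : Prop :=
  p.Prime ∧ AlmostPrime r w (p + 2) ∧ AlmostPrime r w (p + 6) ∧ AlmostPrime r w (p + 8)

lemma mem_pz' (y : ℕ) : Pool.Agent.H373R2.T7.pz y = (range (y + 1)).filter Nat.Prime := by
  ext p
  rw [Pool.Agent.H373R2.T7.mem_pz, mem_filter, mem_range]
  constructor
  · rintro ⟨h1, h2⟩; exact ⟨by omega, h2⟩
  · rintro ⟨h1, h2⟩; exact ⟨by omega, h2⟩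

lemma forbidden_eq {k : ℕ} (e : ℤ) (n : ℕ) (a b : Fin 2 → Fin k → ℤ) (p : ℕ) (hp : p.Prime) :
    forbidden e n a b p = Pool.Agent.H76.TB.nb2 e n a b p := by
  have hp' : Prime (p : ℤ) := Nat.prime_iff_prime_int.1 hp
  unfold forbidden Pool.Agent.H76.TB.nb2
  congr 1
  apply filter_congr
  intro x _
  unfold Pool.Agent.H76.TB.bd2 Pool.Agent.H76.TB.Fv
  rw [Prime.dvd_finsetProd_iff hp', Prime.dvd_finsetProd_iff hp']
  constructor
  · rintro (h | h | ⟨j, h | h⟩)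
    · exact Or.inl (Or.inl h)
    · exact Or.inr (Or.inl h)
    · exact Or.inl (Or.inr ⟨j, mem_univ _, h⟩)
    · exact Or.inr (Or.inr ⟨j, mem_univ _, h⟩)
  · rintro ((h | ⟨j, _, h⟩) | (h | ⟨j, _, h⟩))
    · exact Or.inl h
    · exact Or.inr (Or.inr ⟨j, Or.inl h⟩)
    · exact Or.inr (Or.inl h)
    · exact Or.inr (Or.inr ⟨j, Or.inr h⟩)

lemma reindex (e : ℤ) (N n : ℕ) (f : ℕ × ℕ → ℝ) :
    ∑ t ∈ (Icc 1 N ×ˢ Icc 1 N).filter (fun t => (t.2 : ℤ) = n + e * t.1), f t =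
      ∑ x ∈ Pool.Agent.H76.TB.RX e N n, f (x, Pool.Agent.H76.TB.yy e n x) := by
  refine sum_bij' (fun t _ => t.1) (fun x _ => (x, Pool.Agent.H76.TB.yy e n x)) ?_ ?_ ?_ ?_ ?_
  · intro t ht
    rw [mem_filter, mem_product, mem_Icc, mem_Icc] at ht
    rw [Pool.Agent.H76.TB.mem_RX]
    refine ⟨ht.1.1, ?_, ?_⟩
    · rw [← ht.2]; exact_mod_cast ht.1.2.1
    · rw [← ht.2]; exact_mod_cast ht.1.2.2
  · intro x hx
    have h1 := Pool.Agent.H76.TB.yy_cast hx
    have h2 := Pool.Agent.H76.TB.yy_mem hx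
    rw [mem_filter, mem_product]
    exact ⟨⟨mem_Icc.2 (Pool.Agent.H76.TB.mem_RX.1 hx).1, h2⟩, h1⟩
  · intro t ht
    rw [mem_filter] at ht
    refine Prod.ext rfl ?_
    simp only
    unfold Pool.Agent.H76.TB.yy
    rw [← ht.2]
    exact Int.toNat_natCast _
  · intro x _; rfl
  · intro t ht
    rw [mem_filter] at ht
    congr 1
    refine Prod.ext rfl ?_
    simp only
    unfold Pool.Agent.H76.TB.yy
    rw [← ht.2]
    exact (Int.toNat_natCast _).symm

lemma card_pairs {e : ℤ} (he : e = 1 ∨ e = -1) {N n : ℕ} (hn : n ∈ Icc 1 N) :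
    (((Icc 1 N ×ˢ Icc 1 N).filter (fun t => (t.2 : ℤ) = n + e * t.1)).card : ℝ) = Pool.Agent.H76.TB.XX e N n := by
  have h := reindex e N n (fun _ => 1)
  rw [sum_const, sum_const, nsmul_eq_mul, nsmul_eq_mul, mul_one, mul_one, Pool.Agent.H76.TB.RX_eq he hn, Nat.card_Icc, Nat.add_sub_cancel] at h
  exact h

lemma expected_eq {k : ℕ} {e : ℤ} (he : e = 1 ∨ e = -1) {N n : ℕ} (hn : n ∈ Icc 1 N) (y : ℕ) (a b : Fin 2 → Fin k → ℤ) :
    expected e N n y a b = Pool.Agent.H76.TB.MT2 e N y n a b := by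
  unfold expected Pool.Agent.H76.TB.MT2 Pool.Agent.H76.TB.sg2
  rw [card_pairs he hn, mem_pz']
  congr 1
  apply prod_congr rfl; intro p hp
  rw [forbidden_eq e n a b p (mem_filter.1 hp).2]

lemma RI_iff {k : ℕ} (a b : Fin k → ℤ) (y x : ℕ) :
    Pool.Agent.H76.TB.RI a b (Pool.Agent.H373R2.T7.pz y) x =
      if ∀ l ∈ (range (y + 1)).filter Nat.Prime, ∀ j, ¬ (l : ℤ) ∣ a j * x + b j then 1 else 0 := by
  unfold Pool.Agent.H76.TB.RI
  rw [mem_pz']
  have hiff : (∀ p ∈ (range (y + 1)).filter Nat.Prime, ¬ (p : ℤ) ∣ Pool.Agent.H76.TB.Fv a b (x : ℤ)) ↔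
      (∀ l ∈ (range (y + 1)).filter Nat.Prime, ∀ j, ¬ (l : ℤ) ∣ a j * x + b j) := by
    apply forall_congr'; intro q
    apply forall_congr'; intro hq
    unfold Pool.Agent.H76.TB.Fv
    rw [Prime.dvd_finsetProd_iff (Nat.prime_iff_prime_int.1 (mem_filter.1 hq).2)]
    constructor
    · intro h j hj
      exact h ⟨j, mem_univ _, hj⟩
    · rintro h ⟨j, _, hj⟩
      exact h j hj
  by_cases h : ∀ l ∈ (range (y + 1)).filter Nat.Prime, ∀ j, ¬ (l : ℤ) ∣ a j * x + b j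
  · rw [if_pos h, if_pos (hiff.2 h)]
  · rw [if_neg h, if_neg (fun h' => h (hiff.1 h'))]

lemma sum_eq {k : ℕ} (e : ℤ) (N n y : ℕ) (a b : Fin 2 → Fin k → ℤ) :
    ∑ t ∈ Pairs e N n y a b, Real.log t.1 * Real.log t.2 =
      Pool.Agent.H76.TB.SB Pool.Agent.H76.VG.lp (Pool.Agent.H373R2.T7.pz y) e N n a b := by
  classical
  unfold Pairs Pool.Agent.H76.TB.SB Pool.Agent.H76.TB.BS
  rw [← filter_filter, sum_filter, reindex e N n (fun t => if t.1.Prime ∧ t.2.Prime ∧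
    (∀ l ∈ (range (y + 1)).filter Nat.Prime, ∀ j, ¬ (l : ℤ) ∣ a 0 j * t.1 + b 0 j ∧ ¬ (l : ℤ) ∣ a 1 j * t.2 + b 1 j) then
      Real.log t.1 * Real.log t.2 else 0)]
  apply sum_congr rfl
  intro x _
  simp only
  rw [RI_iff, RI_iff]
  unfold Pool.Agent.H76.VG.lp
  set x' := Pool.Agent.H76.TB.yy e n x with hx'
  by_cases h1 : x.Prime
  · by_cases h2 : x'.Prime
    · by_cases h3 : ∀ l ∈ (range (y + 1)).filter Nat.Prime, ∀ j, ¬ (l : ℤ) ∣ a 0 j * x + b 0 j
      · by_cases h4 : ∀ l ∈ (range (y + 1)).filter Nat.Prime, ∀ j, ¬ (l : ℤ) ∣ a 1 j * x' + b 1 j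
        · rw [if_pos ⟨h1, h2, fun l hl j => ⟨h3 l hl j, h4 l hl j⟩⟩, if_pos h1, if_pos h2, if_pos h3, if_pos h4]; ring
        · rw [if_neg (fun h => h4 fun l hl j => (h.2.2 l hl j).2), if_neg h4]; ring
      · rw [if_neg (fun h => h3 fun l hl j => (h.2.2 l hl j).1), if_neg h3]; ring
    · rw [if_neg (fun h => h2 h.2.1), if_neg h2]; ring
  · rw [if_neg (fun h => h1 h.1), if_neg h1]; ring

/-! ### quadruplets -/

lemma bd_quad (e : ℤ) (n p x : ℕ) (hp : p.Prime) :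
    Pool.Agent.H76.TB.bd2 e n (fun _ => fun _ : Fin 3 => (1 : ℤ)) (fun _ => ![2, 6, 8]) p x ↔
      (((p : ℤ) ∣ x ∨ (p : ℤ) ∣ x + 2 ∨ (p : ℤ) ∣ x + 6 ∨ (p : ℤ) ∣ x + 8) ∨
        ((p : ℤ) ∣ n + e * x ∨ (p : ℤ) ∣ n + e * x + 2 ∨ (p : ℤ) ∣ n + e * x + 6 ∨ (p : ℤ) ∣ n + e * x + 8)) := by
  have hp' : Prime (p : ℤ) := Nat.prime_iff_prime_int.1 hp
  unfold Pool.Agent.H76.TB.bd2 Pool.Agent.H76.TB.Fv
  rw [Fin.prod_univ_three, Fin.prod_univ_three, hp'.dvd_mul, hp'.dvd_mul, hp'.dvd_mul, hp'.dvd_mul]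
  simp only [one_mul, Matrix.cons_val_zero, Matrix.cons_val_one, Matrix.cons_val]
  tauto

lemma nb_lt (e : ℤ) (n p x : ℕ) (a b : Fin 2 → Fin 3 → ℤ) (hx : x < p) (h : ¬ Pool.Agent.H76.TB.bd2 e n a b p x) :
    Pool.Agent.H76.TB.nb2 e n a b p < p := by
  unfold Pool.Agent.H76.TB.nb2
  calc _ < (range p).card := by
        apply card_lt_card
        rw [filter_ssubset]
        exact ⟨x, mem_range.2 hx, h⟩
    _ = p := card_range p

lemma quad_of (r : ℕ) (w : ℝ) (p : ℕ) (hp : p.Prime) (h : ∀ j : Fin 3, (1 : ℤ) * (p : ℤ) + (![2, 6, 8] : Fin 3 → ℤ) j ≠ 0 ∧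
    ((1 : ℤ) * (p : ℤ) + (![2, 6, 8] : Fin 3 → ℤ) j).natAbs.primeFactorsList.length ≤ r ∧
      ∀ q ∈ ((1 : ℤ) * (p : ℤ) + (![2, 6, 8] : Fin 3 → ℤ) j).natAbs.primeFactorsList, w < q) : Quadruplet r w p := by
  have d0 := h 0
  have d1 := h 1
  have d2 := h 2
  simp only [one_mul, Matrix.cons_val_zero, Matrix.cons_val_one, Matrix.cons_val] at d0 d1 d2
  exact ⟨hp, d0, d1, d2⟩

lemma coq : ∀ i : Fin 2, ∀ j : Fin 3, IsCoprime ((fun _ : Fin 2 => fun _ : Fin 3 => (1 : ℤ)) i j) ((fun _ : Fin 2 => (![2, 6, 8] : Fin 3 → ℤ)) i j) :=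
  fun _ _ => isCoprime_one_left

lemma local_sum (n : ℕ) (h30 : n % 30 = 22) (h2 : n % 7 ≠ 2) (h3 : n % 7 ≠ 3) (p : ℕ) (hp : p.Prime) :
    Pool.Agent.H76.TB.nb2 (-1) n (fun _ => fun _ : Fin 3 => (1 : ℤ)) (fun _ => ![2, 6, 8]) p < p := by
  by_cases hp8 : 8 < p
  · have := Pool.Agent.H76.TB.nb2_le (Or.inr rfl) n (fun _ => fun _ : Fin 3 => (1 : ℤ)) (fun _ => ![2, 6, 8]) p hp coq
    omega
  · push Not at hp8
    interval_cases p
    · exact absurd hp (by norm_num)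
    · exact absurd hp (by norm_num)
    · refine nb_lt _ n 2 1 _ _ (by norm_num) ?_
      rw [bd_quad _ _ _ _ hp]; push_cast; rintro ((h | h | h | h) | (h | h | h | h)) <;> omega
    · refine nb_lt _ n 3 2 _ _ (by norm_num) ?_
      rw [bd_quad _ _ _ _ hp]; push_cast; rintro ((h | h | h | h) | (h | h | h | h)) <;> omega
    · exact absurd hp (by norm_num)
    · refine nb_lt _ n 5 1 _ _ (by norm_num) ?_
      rw [bd_quad _ _ _ _ hp]; push_cast; rintro ((h | h | h | h) | (h | h | h | h)) <;> omega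
    · exact absurd hp (by norm_num)
    · have hc : n % 7 = 4 ∨ n % 7 = 5 ∨ n % 7 = 6 ∨ n % 7 = 0 ∨ n % 7 = 1 := by omega
      rcases hc with hc | hc | hc | hc | hc
      · refine nb_lt _ n 7 2 _ _ (by norm_num) ?_
        rw [bd_quad _ _ _ _ hp]; push_cast; rintro ((h | h | h | h) | (h | h | h | h)) <;> omega
      · refine nb_lt _ n 7 2 _ _ (by norm_num) ?_
        rw [bd_quad _ _ _ _ hp]; push_cast; rintro ((h | h | h | h) | (h | h | h | h)) <;> omega
      · refine nb_lt _ n 7 3 _ _ (by norm_num) ?_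
        rw [bd_quad _ _ _ _ hp]; push_cast; rintro ((h | h | h | h) | (h | h | h | h)) <;> omega
      · refine nb_lt _ n 7 3 _ _ (by norm_num) ?_
        rw [bd_quad _ _ _ _ hp]; push_cast; rintro ((h | h | h | h) | (h | h | h | h)) <;> omega
      · refine nb_lt _ n 7 4 _ _ (by norm_num) ?_
        rw [bd_quad _ _ _ _ hp]; push_cast; rintro ((h | h | h | h) | (h | h | h | h)) <;> omega
    · exact absurd hp (by norm_num)

lemma local_dif (n : ℕ) (h30 : n % 30 = 0) (h3 : n % 7 ≠ 3) (h4 : n % 7 ≠ 4) (p : ℕ) (hp : p.Prime) :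
    Pool.Agent.H76.TB.nb2 1 n (fun _ => fun _ : Fin 3 => (1 : ℤ)) (fun _ => ![2, 6, 8]) p < p := by
  by_cases hp8 : 8 < p
  · have := Pool.Agent.H76.TB.nb2_le (Or.inl rfl) n (fun _ => fun _ : Fin 3 => (1 : ℤ)) (fun _ => ![2, 6, 8]) p hp coq
    omega
  · push Not at hp8
    interval_cases p
    · exact absurd hp (by norm_num)
    · exact absurd hp (by norm_num)
    · refine nb_lt _ n 2 1 _ _ (by norm_num) ?_
      rw [bd_quad _ _ _ _ hp]; push_cast; rintro ((h | h | h | h) | (h | h | h | h)) <;> omega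
    · refine nb_lt _ n 3 2 _ _ (by norm_num) ?_
      rw [bd_quad _ _ _ _ hp]; push_cast; rintro ((h | h | h | h) | (h | h | h | h)) <;> omega
    · exact absurd hp (by norm_num)
    · refine nb_lt _ n 5 1 _ _ (by norm_num) ?_
      rw [bd_quad _ _ _ _ hp]; push_cast; rintro ((h | h | h | h) | (h | h | h | h)) <;> omega
    · exact absurd hp (by norm_num)
    · have hc : n % 7 = 0 ∨ n % 7 = 1 ∨ n % 7 = 2 ∨ n % 7 = 5 ∨ n % 7 = 6 := by omega
      rcases hc with hc | hc | hc | hc | hc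
      · refine nb_lt _ n 7 2 _ _ (by norm_num) ?_
        rw [bd_quad _ _ _ _ hp]; push_cast; rintro ((h | h | h | h) | (h | h | h | h)) <;> omega
      · refine nb_lt _ n 7 2 _ _ (by norm_num) ?_
        rw [bd_quad _ _ _ _ hp]; push_cast; rintro ((h | h | h | h) | (h | h | h | h)) <;> omega
      · refine nb_lt _ n 7 2 _ _ (by norm_num) ?_
        rw [bd_quad _ _ _ _ hp]; push_cast; rintro ((h | h | h | h) | (h | h | h | h)) <;> omega
      · refine nb_lt _ n 7 4 _ _ (by norm_num) ?_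
        rw [bd_quad _ _ _ _ hp]; push_cast; rintro ((h | h | h | h) | (h | h | h | h)) <;> omega
      · refine nb_lt _ n 7 4 _ _ (by norm_num) ?_
        rw [bd_quad _ _ _ _ hp]; push_cast; rintro ((h | h | h | h) | (h | h | h | h)) <;> omega
    · exact absurd hp (by norm_num)

/-- **Sums and differences of two primes with almost prime companions, for almost all integers.**
(1) For every `k` there is `s₀` such that for every `A` there are `B, N0` with: let `N ≥ N0`, `s ≥ s₀`,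
`(log N)^B ≤ y ≤ N^(1/(256 s))`, and let `a i j`, `b i j` (`i < 2`, `j < k`) be nonzero coprime integers with `|a i j| ≤ N` and
`|∏ j, b i j| ≤ log N`. Let `e = 1` or `e = -1`. For all but `N/(log N)^A` of the integers `1 ≤ n ≤ N` the following holds: if
no prime is an obstruction, the number (with the weight `log p log q`) of the pairs of primes `p, q ≤ N` with `q = n + e p` for which
no `a 0 j * p + b 0 j` and no `a 1 j * q + b 1 j` has a prime factor `≤ y` is the expected number up to a factor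
`1 + O(256/2^s + (log N)^(-A))`, and the expected number is at least `N/(log N)^(A+4k+6)`.
(2) There are `r` and `δ > 0` such that for every `A` and all large `N`, for all but `N/(log N)^A` of the integers `1 ≤ n ≤ N`: if
`n ≡ 22 mod 30` and `n` is not `2` or `3` modulo `7`, then `n` is a sum of two primes `p, q`, and if `n ≡ 0 mod 30` and `n` is not `3`
or `4` modulo `7`, then `n` is a difference of two primes `q - p`, with `p + 2, p + 6, p + 8, q + 2, q + 6, q + 8` almost prime: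
at most `r` prime factors, all larger than `N^δ`; there are at least `N/(log N)^(A+23)` such representations, with `p, q ≤ N`. -/
theorem result :
    (∀ k : ℕ, ∃ s₀ : ℕ, ∀ A : ℕ, ∃ B N0 : ℕ, ∀ N : ℕ, N0 ≤ N → ∀ s y : ℕ, s₀ ≤ s → y ^ (256 * s) ≤ N → Real.log N ^ B ≤ y →
      ∀ (a b : Fin 2 → Fin k → ℤ), (∀ i j, a i j ≠ 0 ∧ b i j ≠ 0 ∧ |a i j| ≤ N ∧ IsCoprime (a i j) (b i j)) →
      (∀ i, ((∏ j, b i j).natAbs : ℝ) ≤ Real.log N) → ∀ e : ℤ, (e = 1 ∨ e = -1) →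
      ∃ ℰ : Finset ℕ, (ℰ.card : ℝ) ≤ N / Real.log N ^ A ∧ ∀ n ∈ Icc 1 N, n ∉ ℰ → (∀ p : ℕ, p.Prime → forbidden e n a b p < p) →
        |∑ t ∈ Pairs e N n y a b, Real.log t.1 * Real.log t.2 - expected e N n y a b| ≤
          (256 / 2 ^ s + 1 / Real.log N ^ A) * expected e N n y a b ∧
        N / Real.log N ^ (A + 4 * k + 6) ≤ expected e N n y a b) ∧
    (∃ (r : ℕ) (δ : ℝ), 0 < δ ∧ ∀ A : ℕ, ∃ N0 : ℕ, ∀ N : ℕ, N0 ≤ N →
      ∃ ℰ : Finset ℕ, (ℰ.card : ℝ) ≤ N / Real.log N ^ A ∧ ∀ n ∈ Icc 1 N, n ∉ ℰ →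
        (n % 30 = 22 → n % 7 ≠ 2 → n % 7 ≠ 3 → ∃ R : Finset ℕ, N / Real.log N ^ (A + 23) ≤ R.card ∧
          ∀ p ∈ R, ∃ q : ℕ, p + q = n ∧ Quadruplet r ((N : ℝ) ^ δ) p ∧ Quadruplet r ((N : ℝ) ^ δ) q) ∧
        (n % 30 = 0 → n % 7 ≠ 3 → n % 7 ≠ 4 → ∃ R : Finset ℕ, N / Real.log N ^ (A + 23) ≤ R.card ∧
          ∀ p ∈ R, ∃ q : ℕ, q ≤ N ∧ q = n + p ∧ Quadruplet r ((N : ℝ) ^ δ) p ∧ Quadruplet r ((N : ℝ) ^ δ) q)) := by
  constructor
  · intro k
    obtain ⟨s₀, h⟩ := Pool.Agent.H76.TB.bin_main k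
    refine ⟨s₀, fun A => ?_⟩
    obtain ⟨B, N0, h1⟩ := h A
    refine ⟨B, N0, fun N hN s y hs hys hy a b hab hbN e he => ?_⟩
    obtain ⟨ℰ, hE, h2⟩ := h1 N hN s y hs hys hy a b (fun i => prod_ne_zero_iff.2 fun j _ => (hab i j).2.1) hbN (fun i j => (hab i j).2.2.1)
      (fun i j => (hab i j).1) (fun i j => (hab i j).2.2.2) e he
    refine ⟨ℰ, hE, fun n hn hnE hun => ?_⟩
    rw [sum_eq, expected_eq he hn]
    exact h2 n hn hnE (fun p hp => by
      have := hun p hp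
      rwa [forbidden_eq e n a b p hp] at this)
  · obtain ⟨r, δ, hδ, h⟩ := Pool.Agent.H76.TB.almost2 3
    refine ⟨r, δ, hδ, fun A => ?_⟩
    obtain ⟨N0, h1⟩ := h (A + 1)
    obtain ⟨m2, h2⟩ := Pool.Agent.H373R2.T7.ev_L' 100
    refine ⟨max N0 (max m2 1), fun N hN => ?_⟩
    have hL := h2 N (le_trans (le_trans (le_max_left _ _) (le_max_right _ _)) hN)
    have hN1 : 1 ≤ N := le_trans (le_trans (le_max_right _ _) (le_max_right _ _)) hN
    have hN0 : (0 : ℝ) < N := by exact_mod_cast hN1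
    have hℓ0 : 0 < Real.log N := by linarith
    have hprod : ∀ i : Fin 2, (∏ j, (fun _ : Fin 2 => (![2, 6, 8] : Fin 3 → ℤ)) i j) = 96 := by
      intro i
      rw [Fin.prod_univ_three]
      simp only [Matrix.cons_val_zero, Matrix.cons_val_one, Matrix.cons_val]
      norm_num
    have key := h1 N (le_trans (le_max_left _ _) hN) (fun _ => fun _ => 1) (fun _ => ![2, 6, 8]) (fun i => by rw [hprod i]; norm_num)
      (fun i => by rw [hprod i]; norm_num; linarith) (fun i j => by simpa using hN1) (fun i j => one_ne_zero) coq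
    obtain ⟨ℰ₁, hE1, k1⟩ := key (-1) (Or.inr rfl)
    obtain ⟨ℰ₂, hE2, k2⟩ := key 1 (Or.inl rfl)
    refine ⟨ℰ₁ ∪ ℰ₂, ?_, fun n hn hnE => ?_⟩
    · have g1 : ((ℰ₁ ∪ ℰ₂).card : ℝ) ≤ (ℰ₁.card : ℝ) + ℰ₂.card := by exact_mod_cast card_union_le _ _
      have g2 : (N : ℝ) / Real.log N ^ (A + 1) + N / Real.log N ^ (A + 1) ≤ N / Real.log N ^ A := by
        rw [pow_succ]
        calc (N : ℝ) / (Real.log N ^ A * Real.log N) + N / (Real.log N ^ A * Real.log N) = (2 / Real.log N) * (N / Real.log N ^ A) := by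
              field_simp; ring
          _ ≤ 1 * (N / Real.log N ^ A) := by
              apply mul_le_mul_of_nonneg_right _ (by positivity)
              rw [div_le_one hℓ0]; linarith
          _ = _ := one_mul _
      linarith
    · rw [mem_union, not_or] at hnE
      have hpow : A + 1 + 4 * 3 + 10 = A + 23 := by omega
      refine ⟨fun c1 c2 c3 => ?_, fun c1 c2 c3 => ?_⟩
      · obtain ⟨R, hR1, hR2⟩ := k1 n hn hnE.1 (fun p hp => local_sum n c1 c2 c3 p hp)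
        rw [hpow] at hR1
        refine ⟨R, hR1, fun p hp => ?_⟩
        obtain ⟨u1, _, q, u2, _, u3, u4, u5⟩ := hR2 p hp
        exact ⟨q, by omega, quad_of _ _ p u1 u4, quad_of _ _ q u2 u5⟩
      · obtain ⟨R, hR1, hR2⟩ := k2 n hn hnE.2 (fun p hp => local_dif n c1 c2 c3 p hp)
        rw [hpow] at hR1
        refine ⟨R, hR1, fun p hp => ?_⟩
        obtain ⟨u1, _, q, u2, u2', u3, u4, u5⟩ := hR2 p hp
        exact ⟨q, u2', by omega, quad_of _ _ p u1 u4, quad_of _ _ q u2 u5⟩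

end Pool.Agent.Results.MP_fc51f7_nt.SumsAndDifferences
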